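import Pool.Agent.T2h27.DW4

/-!
# Contracting compositions of inner functions with divergent series and full Denjoy-Wolff set

The question is whether the Denjoy-Wolff set of a contracting forward composition `F_n` of inner
functions whose interior orbits converge to the boundary must be null as soon as
`∑ (1 - |F_n(0)|)` diverges. The answer is no, and no lower bound whatsoever on `1 - |F_n(0)|`
can force it: for every sequence `t_n → 0`, `t_n ≤ 1`, there is a contracting forward
composition of Blaschke products of degree exactly two with `1 - |F_n(0)| ≥ t_n` for all `n`,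
whose Denjoy-Wolff set has full measure.

Construction. With `M_a(z) = (z + a)/(1 + a z)` and `h_b(z) = z (z + b)/(1 + b z)` let
`f_{n+1} = M_{a_{n+1}} ∘ h_{b_{n+1}} ∘ M_{-a_n}`, so that `F_n = M_{a_n} ∘ W_n` with
`W_n = h_{b_n} ∘ ⋯ ∘ h_{b_1}`. The numbers `a_n` are constant on long blocks. At the beginning of
a block `b_n = 0` (this gives the contraction), inside a block `b_n` is so close to one that `W_n`
hardly changes on most of the unit circle: the exceptional events of all the times of a block are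
one and the same event, and only its probability enters the Borel-Cantelli lemma.
-/

set_option autoImplicit false

open Complex Metric Set Filter Topology MeasureTheory
open scoped ComplexConjugate

namespace Pool.Agent.Results.MP_9b5b1e_an.FullDenjoyWolffSet

/-- `f` is an inner function: a holomorphic map of the unit disc into itself whose radial limit at
`e^{iθ}` exists and has modulus one, for almost every `θ`. -/
def IsInner (f : ℂ → ℂ) : Prop :=
  DifferentiableOn ℂ f (ball 0 1) ∧ MapsTo f (ball 0 1) (ball 0 1) ∧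
    ∀ᵐ θ : ℝ, ∃ w : ℂ, ‖w‖ = 1 ∧ Tendsto (fun r : ℝ => f (r * exp (θ * I))) (𝓝[<] 1) (𝓝 w)

/-- `f` is on the closed unit disc a Blaschke product of degree two. -/
def IsBlaschkeTwo (f : ℂ → ℂ) : Prop :=
  ∃ c p q : ℂ, ‖c‖ = 1 ∧ ‖p‖ < 1 ∧ ‖q‖ < 1 ∧ ∀ z : ℂ, ‖z‖ ≤ 1 →
    f z = c * ((z - p) / (1 - conj p * z)) * ((z - q) / (1 - conj q * z))

/-- The forward composition `F_n = f_n ∘ ⋯ ∘ f_1`; the map `f_{n+1}` is the value `f n`. -/
def fwd (f : ℕ → ℂ → ℂ) : ℕ → ℂ → ℂ
  | 0 => id
  | n + 1 => f n ∘ fwd f n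

/-- The hyperbolic distance of the unit disc, `log ((1 + ρ) / (1 - ρ))` with
`ρ = |z - w| / |1 - conj w z|`. -/
noncomputable def hypDist (z w : ℂ) : ℝ :=
  Real.log ((1 + ‖(z - w) / (1 - conj w * z)‖) / (1 - ‖(z - w) / (1 - conj w * z)‖))

/-- `(F_n)` is contracting: hyperbolic distances of orbits tend to zero. -/
def Contracting (F : ℕ → ℂ → ℂ) : Prop :=
  ∀ z ∈ ball (0 : ℂ) 1, ∀ z' ∈ ball (0 : ℂ) 1,
    Tendsto (fun n => hypDist (F n z) (F n z')) atTop (𝓝 0)

/-- The angles `θ` of the points `e^{iθ}` of the Denjoy-Wolff set: the radial limits `w n` of all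
`F_n` at `e^{iθ}` exist, and `|w n - F_n(0)| → 0`. -/
def denjoyWolffAngles (F : ℕ → ℂ → ℂ) : Set ℝ :=
  {θ | ∃ w : ℕ → ℂ,
    (∀ n, Tendsto (fun r : ℝ => F n (r * exp (θ * I))) (𝓝[<] 1) (𝓝 (w n))) ∧
    Tendsto (fun n => ‖w n - F n 0‖) atTop (𝓝 0)}

open Pool.Agent.T2h27.DW

/-- the maps of the counterexample -/
noncomputable def maps (N : ℕ → ℕ) (n : ℕ) : ℂ → ℂ := ff (aa N (n + 1)) (bb N (n + 1)) (aa N n)

lemma fwd_eq {N : ℕ → ℕ} (n : ℕ) {z : ℂ} (hz : ‖z‖ ≤ 1) :
    fwd (maps N) n z = mob (aa N n) (W (bb N) n z) := by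
  induction n with
  | zero =>
    have h0 : aa N 0 = 0 := by simp [aa, blk]
    simp [fwd, W, h0, mob]
  | succ n ih =>
    have h1 : fwd (maps N) (n + 1) z = maps N n (fwd (maps N) n z) := rfl
    have hW : ‖W (bb N) n z‖ ≤ 1 := (W_norm_le (bb_nonneg N) (bb_lt N) n hz).trans hz
    rw [h1, ih]
    unfold maps ff
    rw [mob_neg_mob (by linarith [aa_nonneg N n]) (aa_lt N n) hW]
    rfl

lemma radial {G : ℂ → ℂ} {θ : ℝ} (hG : ContinuousAt G (exp (θ * I))) :
    Tendsto (fun r : ℝ => G (r * exp (θ * I))) (𝓝[<] 1) (𝓝 (G (exp (θ * I)))) := by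
  have h1 : Tendsto (fun r : ℝ => (r : ℂ) * exp (θ * I)) (𝓝 1) (𝓝 (exp (θ * I))) := by
    have : Continuous fun r : ℝ => (r : ℂ) * exp (θ * I) := by fun_prop
    have h2 := this.tendsto 1
    simpa using h2
  exact (hG.tendsto.comp h1).mono_left nhdsWithin_le_nhds

lemma norm_exp (θ : ℝ) : ‖exp ((θ : ℂ) * I)‖ = 1 := Complex.norm_exp_ofReal_mul_I θ

lemma radial_fwd {N : ℕ → ℕ} (n : ℕ) (θ : ℝ) :
    Tendsto (fun r : ℝ => fwd (maps N) n (r * exp (θ * I))) (𝓝[<] 1)
      (𝓝 (mob (aa N n) (W (bb N) n (exp (θ * I))))) := by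
  have hd : DifferentiableAt ℂ (fun z => mob (aa N n) (W (bb N) n z)) (exp (θ * I)) := by
    have hz := (norm_exp θ).le
    have h1 := W_diff (bb_nonneg N) (bb_lt N) n hz
    have h2 : DifferentiableAt ℂ (mob (aa N n)) (W (bb N) n (exp (θ * I))) :=
      mob_diff (by linarith [aa_nonneg N n]) (aa_lt N n)
        ((W_norm_le (bb_nonneg N) (bb_lt N) n hz).trans hz)
    exact (h2.comp _ h1 :)
  refine (radial hd.continuousAt).congr' ?_
  have h3 : ∀ᶠ r : ℝ in 𝓝[<] 1, r ∈ Ioo (-1 : ℝ) 1 :=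
    Ioo_mem_nhdsLT (by norm_num)
  filter_upwards [h3] with r hr
  rw [fwd_eq]
  rw [norm_mul, norm_exp, mul_one, Complex.norm_real, Real.norm_eq_abs]
  exact (abs_lt.2 ⟨hr.1, hr.2⟩).le

lemma W_lt {N : ℕ → ℕ} (n : ℕ) {z : ℂ} (hz : ‖z‖ < 1) : ‖W (bb N) n z‖ < 1 :=
  (W_norm_le (bb_nonneg N) (bb_lt N) n hz.le).trans_lt hz

/-- **Negative answer.** For every sequence `t` of reals `t n ≤ 1` with `t n → 0` there are Blaschke
products `f_1, f_2, …` of degree two such that the forward composition `F_n` is contracting, the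
interior orbits converge to the boundary, the series `∑ (1 - |F_n(0)|)` diverges, even
`1 - |F_n(0)| ≥ t n` for all `n`, and the Denjoy-Wolff set has full measure. -/
theorem result (t : ℕ → ℝ) (ht : Tendsto t atTop (𝓝 0)) (ht1 : ∀ n, t n ≤ 1) :
    ∃ f : ℕ → ℂ → ℂ,
      (∀ n, IsBlaschkeTwo (f n)) ∧ (∀ n, IsInner (f n)) ∧
      Contracting (fwd f) ∧
      (∀ z ∈ ball (0 : ℂ) 1, Tendsto (fun n => ‖fwd f n z‖) atTop (𝓝 1)) ∧
      (¬ Summable fun n => 1 - ‖fwd f n 0‖) ∧
      (∀ n, t n ≤ 1 - ‖fwd f n 0‖) ∧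
      volume (Ioc 0 (2 * Real.pi) \ denjoyWolffAngles (fwd f)) = 0 := by
  -- the blocks
  have ht' : Tendsto (fun n => max (t n) (1 / ((n : ℝ) + 1))) atTop (𝓝 0) := by
    have := ht.max (tendsto_one_div_add_atTop_nhds_zero_nat (𝕜 := ℝ))
    rwa [max_self] at this
  obtain ⟨N, hN, hN0, hNt⟩ := exists_blocks ht' (fun n => max_le (ht1 n) (by
    rw [div_le_one (by positivity)]
    have : (0 : ℝ) ≤ n := Nat.cast_nonneg n
    linarith))
  have ha0 := aa_nonneg N
  have ha1 := aa_lt N
  have hb0 := bb_nonneg N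
  have hb1 := bb_lt N
  have hF0 : ∀ n, ‖fwd (maps N) n 0‖ = aa N n := by
    intro n
    rw [fwd_eq n (by simp), W_zero, mob_zero, Complex.norm_real, Real.norm_of_nonneg (ha0 n)]
  have hlow : ∀ n, max (t n) (1 / ((n : ℝ) + 1)) ≤ 1 - ‖fwd (maps N) n 0‖ := by
    intro n
    rw [hF0]
    unfold aa
    have := hNt (blk N n) n (blk_le hN0 n)
    linarith
  have haa : Tendsto (aa N) atTop (𝓝 1) := by
    have h1 : Tendsto (fun n => (1 / 16 : ℝ) ^ blk N n) atTop (𝓝 0) :=
      (tendsto_pow_atTop_nhds_zero_of_lt_one (by norm_num) (by norm_num)).comp (blk_tendsto hN hN0)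
    have h2 := h1.const_sub 1
    rw [sub_zero] at h2
    exact h2
  have hbfreq : ∃ᶠ n in atTop, bb N n = 0 := by
    rw [frequently_atTop]
    intro m
    refine ⟨N (m + 1), (hN.id_le m).trans (hN.monotone (Nat.le_succ m)), ?_⟩
    unfold bb
    rw [if_neg]
    rw [blk_N hN hN0]
    intro hc
    have h1 : 0 < N (m + 1) := (Nat.zero_le _).trans_lt (hN (Nat.lt_succ_self m))
    have h2 : N (blk N (N (m + 1) - 1)) ≤ N (m + 1) - 1 := blk_le hN0 _
    rw [← hc] at h2
    omega
  refine ⟨maps N, ?_, ?_, ?_, ?_, ?_, ?_, ?_⟩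
  · -- Blaschke
    intro n
    obtain ⟨p, q, hp, hq, h⟩ := ff_blaschke (ha0 (n + 1)) (ha1 (n + 1)) (hb0 (n + 1)) (hb1 (n + 1))
      (ha0 n) (ha1 n)
    exact ⟨1, p, q, norm_one, hp, hq, fun z hz => by rw [one_mul]; exact h z hz⟩
  · -- inner
    intro n
    refine ⟨fun z hz => ?_, fun z hz => ?_, Eventually.of_forall fun θ => ?_⟩
    · exact (ff_diff (ha0 _) (ha1 _) (hb0 _) (hb1 _) (ha0 n) (ha1 n)
        (mem_ball_zero_iff.1 hz).le).differentiableWithinAt
    · rw [mem_ball_zero_iff] at hz ⊢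
      exact ff_mapsTo (ha0 _) (ha1 _) (hb0 _) (hb1 _) (ha0 n) (ha1 n) hz
    · refine ⟨maps N n (exp (θ * I)), ?_, radial ?_⟩
      · exact ff_norm_eq (ha0 _) (ha1 _) (hb0 _) (hb1 _) (ha0 n) (ha1 n) (norm_exp θ)
      · exact (ff_diff (ha0 _) (ha1 _) (hb0 _) (hb1 _) (ha0 n) (ha1 n)
          (norm_exp θ).le).continuousAt
  · -- contracting
    intro z hz z' hz'
    rw [mem_ball_zero_iff] at hz hz'
    have h1 := W_tendsto hb0 hb1 hbfreq hz
    have h2 := W_tendsto hb0 hb1 hbfreq hz'
    have hρ : Tendsto (fun n => ‖(fwd (maps N) n z - fwd (maps N) n z') /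
        (1 - conj (fwd (maps N) n z') * fwd (maps N) n z)‖) atTop (𝓝 0) := by
      have h3 : ∀ n, ‖(fwd (maps N) n z - fwd (maps N) n z') /
          (1 - conj (fwd (maps N) n z') * fwd (maps N) n z)‖ ≤
          (‖W (bb N) n z‖ + ‖W (bb N) n z'‖) / (1 - ‖z‖) := by
        intro n
        rw [fwd_eq n hz.le, fwd_eq n hz'.le,
          mob_pseudo (by linarith [ha0 n]) (ha1 n) (W_lt n hz) (W_lt n hz'), norm_div]
        have h4 : 1 - ‖z‖ ≤ ‖1 - conj (W (bb N) n z') * W (bb N) n z‖ := by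
          have h5 : ‖conj (W (bb N) n z') * W (bb N) n z‖ ≤ ‖z‖ := by
            rw [norm_mul, RCLike.norm_conj]
            have h6 := W_norm_le hb0 hb1 n hz.le
            have h7 := (W_lt (N := N) n hz').le
            calc ‖W (bb N) n z'‖ * ‖W (bb N) n z‖ ≤ 1 * ‖z‖ :=
                  mul_le_mul h7 h6 (norm_nonneg _) zero_le_one
              _ = ‖z‖ := one_mul _
          have h6 := norm_sub_norm_le (1 : ℂ) (conj (W (bb N) n z') * W (bb N) n z)
          rw [norm_one] at h6
          linarith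
        have h8 := norm_sub_le (W (bb N) n z) (W (bb N) n z')
        have h9 : 0 < 1 - ‖z‖ := by linarith
        gcongr
      have h4 : Tendsto (fun n => (‖W (bb N) n z‖ + ‖W (bb N) n z'‖) / (1 - ‖z‖)) atTop (𝓝 0) := by
        have := (h1.add h2).div_const (1 - ‖z‖)
        simpa using this
      exact squeeze_zero (fun n => norm_nonneg _) h3 h4
    unfold hypDist
    have h5 : Tendsto (fun x : ℝ => Real.log ((1 + x) / (1 - x))) (𝓝 0) (𝓝 0) := by
      have hc : ContinuousAt (fun x : ℝ => Real.log ((1 + x) / (1 - x))) 0 := by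
        apply ContinuousAt.log
        · apply ContinuousAt.div
          · fun_prop
          · fun_prop
          · norm_num
        · norm_num
      have := hc.tendsto
      simpa using this
    exact h5.comp hρ
  · -- convergence to the boundary
    intro z hz
    rw [mem_ball_zero_iff] at hz
    have h1 := W_tendsto hb0 hb1 hbfreq hz
    -- `|1 - F_n(z)| ≤ 4 (1 - a_n) / |1 + W_n|`
    have h2 : Tendsto (fun n => fwd (maps N) n z) atTop (𝓝 1) := by
      rw [tendsto_iff_norm_sub_tendsto_zero]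
      have h3 : ∀ n, ‖fwd (maps N) n z - 1‖ ≤ 4 * (1 - aa N n) / (1 - ‖z‖) := by
        intro n
        have hW := W_lt (N := N) n hz
        have h4 : 1 - ‖z‖ ≤ ‖1 + W (bb N) n z‖ := by
          have h5 := W_norm_le hb0 hb1 n hz.le
          have h6 := norm_sub_norm_le (1 : ℂ) (-(W (bb N) n z))
          rw [norm_one, norm_neg, sub_neg_eq_add] at h6
          linarith
        have h5 : 0 < ‖1 + W (bb N) n z‖ := by linarith
        rw [fwd_eq n hz.le, norm_sub_rev]
        refine (one_sub_mob (ha0 n) (ha1 n) hW.le (norm_pos_iff.1 h5)).trans ?_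
        have h6 : 0 ≤ 4 * (1 - aa N n) := by linarith [ha1 n]
        have h7 : 0 < 1 - ‖z‖ := by linarith
        gcongr
      have h4 : Tendsto (fun n => 4 * (1 - aa N n) / (1 - ‖z‖)) atTop (𝓝 0) := by
        have := ((haa.const_sub 1).const_mul 4).div_const (1 - ‖z‖)
        simpa using this
      exact squeeze_zero (fun n => norm_nonneg _) h3 h4
    have h3 := h2.norm
    rwa [norm_one] at h3
  · -- divergence
    intro hs
    have h1 : Summable fun n : ℕ => 1 / ((n : ℝ) + 1) :=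
      Summable.of_nonneg_of_le (fun n => by positivity)
        (fun n => (le_max_right _ _).trans (hlow n)) hs
    have h2 : Summable fun n : ℕ => 1 / (((n + 1 : ℕ) : ℝ)) := by
      refine h1.congr fun n => by push_cast; rfl
    exact Real.not_summable_one_div_natCast ((summable_nat_add_iff 1).1 h2)
  · intro n
    exact (le_max_left _ _).trans (hlow n)
  · -- the Denjoy-Wolff set
    have hae := ae_good N
    rw [ae_iff] at hae
    refine measure_mono_null ?_ hae
    rintro θ ⟨hθ, hnot⟩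
    rw [mem_ofPred_eq]
    intro hgood
    apply hnot
    obtain ⟨K₀, hK₀⟩ := eventually_atTop.1 hgood
    set K := max K₀ 1 with hK
    have hlw := lower hN hN0 hθ (le_max_right K₀ 1) (fun k hk => hK₀ k ((le_max_left _ _).trans hk))
    have hcm : circleMap 0 1 θ = exp (θ * I) := by simp [circleMap]
    rw [hcm] at hlw
    refine ⟨fun n => mob (aa N n) (W (bb N) n (exp (θ * I))), fun n => radial_fwd n θ, ?_⟩
    have h1 : Tendsto (fun n => ‖1 - mob (aa N n) (W (bb N) n (exp (θ * I)))‖) atTop (𝓝 0) := by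
      have h2 : ∀ᶠ n in atTop, ‖1 - mob (aa N n) (W (bb N) n (exp (θ * I)))‖ ≤
          16 * (1 / 2) ^ blk N n := by
        filter_upwards [eventually_ge_atTop (N K)] with n hn
        have h3 := hlw n hn
        have hp8 : 0 < (1 / 8 : ℝ) ^ blk N n := by positivity
        have hp2 : 0 < (1 / 2 : ℝ) ^ n := by positivity
        have h4 : (1 / 8 : ℝ) ^ blk N n * (1 / 4) ≤ ‖1 + W (bb N) n (exp (θ * I))‖ := by nlinarith
        have h5 : 0 < ‖1 + W (bb N) n (exp (θ * I))‖ := lt_of_lt_of_le (by positivity) h4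
        have hz := (norm_exp θ).le
        refine (one_sub_mob (ha0 n) (ha1 n) ((W_norm_le hb0 hb1 n hz).trans hz)
          (norm_pos_iff.1 h5)).trans ?_
        rw [div_le_iff₀ h5]
        have h6 : 1 - aa N n = (1 / 8 : ℝ) ^ blk N n * (1 / 2) ^ blk N n := by
          unfold aa
          rw [← mul_pow]
          norm_num
        rw [h6]
        have h7 : 16 * (1 / 2 : ℝ) ^ blk N n * ((1 / 8) ^ blk N n * (1 / 4)) ≤
            16 * (1 / 2 : ℝ) ^ blk N n * ‖1 + W (bb N) n (exp (θ * I))‖ :=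
          mul_le_mul_of_nonneg_left h4 (by positivity)
        linarith
      have h3 : Tendsto (fun n => 16 * (1 / 2 : ℝ) ^ blk N n) atTop (𝓝 0) := by
        have := ((tendsto_pow_atTop_nhds_zero_of_lt_one (r := (1 / 2 : ℝ)) (by norm_num)
          (by norm_num)).comp (blk_tendsto hN hN0)).const_mul 16
        simpa using this
      exact squeeze_zero' (Eventually.of_forall fun n => norm_nonneg _) h2 h3
    have h2 : Tendsto (fun n => 1 - aa N n) atTop (𝓝 0) := by
      have := haa.const_sub 1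
      simpa using this
    have h3 := h1.add h2
    rw [add_zero] at h3
    refine squeeze_zero (fun n => norm_nonneg _) (fun n => ?_) h3
    have h4 : fwd (maps N) n 0 = aa N n := by
      rw [fwd_eq n (by simp), W_zero, mob_zero]
    rw [h4]
    have h5 : mob (aa N n) (W (bb N) n (exp (θ * I))) - aa N n =
        -(1 - mob (aa N n) (W (bb N) n (exp (θ * I)))) + ((1 - aa N n : ℝ) : ℂ) := by
      push_cast
      ring
    calc ‖mob (aa N n) (W (bb N) n (exp (θ * I))) - aa N n‖
        = ‖-(1 - mob (aa N n) (W (bb N) n (exp (θ * I)))) + ((1 - aa N n : ℝ) : ℂ)‖ := by rw [h5]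
      _ ≤ ‖-(1 - mob (aa N n) (W (bb N) n (exp (θ * I))))‖ + ‖((1 - aa N n : ℝ) : ℂ)‖ :=
        norm_add_le _ _
      _ = _ := by
        rw [norm_neg, Complex.norm_real, Real.norm_of_nonneg (by linarith [ha1 n])]

end Pool.Agent.Results.MP_9b5b1e_an.FullDenjoyWolffSet
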